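import Mathlib
import Pool.Agent.H755R2.NG.Stubs

namespace Pool.Agent.H849R2.DER3

open Matrix Pool.Agent.H667R2.FG Pool.Agent.H755R2.NG
open scoped Matrix.Norms.L2Operator ComplexConjugate ComplexOrder

theorem det_le {n : Type} [Fintype n] [DecidableEq n] (M : Matrix n n ℂ)
    (h : ∑ p, ∑ q, ‖M p q‖ ^ 2 ≤ (Fintype.card n : ℝ)) : ‖M.det‖ ≤ 1 := by
  have hN : (Mᴴ * M).PosSemidef := posSemidef_conjTranspose_mul_self M
  have hH := hN.isHermitian
  have h1 : ((‖M.det‖ ^ 2 : ℝ) : ℂ) = ((∏ i, hH.eigenvalues i : ℝ) : ℂ) := by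
    have := hH.det_eq_prod_eigenvalues
    rw [det_mul, det_conjTranspose] at this
    rw [Complex.ofReal_prod, ← Complex.normSq_eq_norm_sq, Complex.normSq_eq_conj_mul_self]
    exact this
  have h2 : (∑ i, hH.eigenvalues i) = ∑ p, ∑ q, ‖M p q‖ ^ 2 := by
    have := hH.trace_eq_sum_eigenvalues
    have h3 : (Mᴴ * M).trace = ((∑ p, ∑ q, ‖M p q‖ ^ 2 : ℝ) : ℂ) := by
      rw [Finset.sum_comm]
      simp only [Matrix.trace, Matrix.diag, Matrix.mul_apply, Matrix.conjTranspose_apply]
      push_cast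
      refine Finset.sum_congr rfl fun q _ => Finset.sum_congr rfl fun p _ => ?_
      rw [← Complex.ofReal_pow, ← Complex.normSq_eq_norm_sq, Complex.normSq_eq_conj_mul_self]
      rfl
    rw [h3] at this
    have h4 : ((∑ p, ∑ q, ‖M p q‖ ^ 2 : ℝ) : ℂ) = ((∑ i, hH.eigenvalues i : ℝ) : ℂ) := by
      rw [this]; push_cast; rfl
    exact (Complex.ofReal_injective h4).symm
  have h5 : ‖M.det‖ ^ 2 = ∏ i, hH.eigenvalues i := Complex.ofReal_injective h1
  have h6 : ∏ i, hH.eigenvalues i ≤ ∏ i, Real.exp (hH.eigenvalues i - 1) := by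
    refine Finset.prod_le_prod (fun i _ => hN.eigenvalues_nonneg i) fun i _ => ?_
    have := Real.add_one_le_exp (hH.eigenvalues i - 1)
    linarith
  rw [← Real.exp_sum, Finset.sum_sub_distrib, h2] at h6
  have h7 : Real.exp (∑ p, ∑ q, ‖M p q‖ ^ 2 - ∑ i : n, (1 : ℝ)) ≤ 1 := by
    rw [Real.exp_le_one_iff]
    simp only [Finset.sum_const, Finset.card_univ, nsmul_eq_mul, mul_one]
    linarith
  have h8 : ‖M.det‖ ^ 2 ≤ 1 := by rw [h5]; exact h6.trans h7
  nlinarith [norm_nonneg M.det]

theorem herm_sum {k : ℕ} (S : Vc k) : ∑ i, ∑ j, ‖herm S i j‖ ^ 2 = Pool.Agent.H755R2.NG.sq S := by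
  have h : ∀ i j, ‖herm S i j‖ ^ 2 = (S (i, j) ^ 2 + S (j, i) ^ 2) / 2 := by
    intro i j
    rw [← Complex.normSq_eq_norm_sq]
    unfold herm
    rw [Complex.normSq_add_mul_I]
    ring
  simp only [h]
  unfold Pool.Agent.H755R2.NG.sq
  rw [Fintype.sum_prod_type]
  simp only [add_div, Finset.sum_add_distrib]
  have : ∑ x, ∑ x_1, S (x_1, x) ^ 2 / 2 = ∑ x, ∑ x_1, S (x, x_1) ^ 2 / 2 := Finset.sum_comm
  rw [this, ← Finset.sum_add_distrib]
  refine Finset.sum_congr rfl fun i _ => ?_
  rw [← Finset.sum_add_distrib]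
  refine Finset.sum_congr rfl fun j _ => ?_
  ring

theorem one_sum {k : ℕ} (S : Vc k) (e : ℝ) (he : e ^ 2 = 1) :
    ∑ i, ∑ j, ‖((1 : Mat k) + ((e : ℂ) * Complex.I) • herm S) i j‖ ^ 2 = k + Pool.Agent.H755R2.NG.sq S := by
  have h : ∀ i j, ‖((1 : Mat k) + ((e : ℂ) * Complex.I) • herm S) i j‖ ^ 2 =
      (if i = j then 1 else 0) + ‖herm S i j‖ ^ 2 := by
    intro i j
    rw [← Complex.normSq_eq_norm_sq, ← Complex.normSq_eq_norm_sq]
    rw [Matrix.add_apply, Matrix.smul_apply, Matrix.one_apply, smul_eq_mul]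
    unfold herm
    by_cases hij : i = j
    · subst hij
      simp [Complex.normSq_apply]
      nlinarith
    · simp only [if_neg hij, Complex.normSq_mul, Complex.normSq_ofReal, Complex.normSq_I, zero_add]
      rw [← _root_.sq, he, one_mul, one_mul]
  simp only [h, Finset.sum_add_distrib, herm_sum]
  simp

theorem four_sum {k : ℕ} (f g : Fin k → Fin k → ℝ) :
    ∑ a, ∑ b, ∑ c, ∑ d, 1 / 4 * (f a c * g d b) =
      1 / 4 * ((∑ a, ∑ c, f a c) * ∑ d, ∑ b, g d b) := by
  have e : ∑ d, ∑ b, g d b = ∑ b, ∑ d, g d b := Finset.sum_comm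
  rw [e, Finset.sum_mul_sum, Finset.mul_sum]
  refine Finset.sum_congr rfl fun a _ => ?_
  rw [Finset.mul_sum]
  refine Finset.sum_congr rfl fun b _ => ?_
  rw [Finset.sum_mul_sum, Finset.mul_sum]
  refine Finset.sum_congr rfl fun c _ => ?_
  rw [Finset.mul_sum]

/-- `ι → M_k(ℂ)` in coordinates -/
noncomputable def eq {ι : Type} {k : ℕ} : (ι → Mat k) ≃ₗ[ℂ] (ι × Fin k × Fin k → ℂ) where
  toFun K := fun p => K p.1 p.2.1 p.2.2
  invFun f := fun i a b => f (i, a, b)
  map_add' K K' := rfl
  map_smul' c K := rfl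
  left_inv K := rfl
  right_inv f := rfl

/-- the inverse of `MM A` -/
noncomputable def SS {k : ℕ} {ι : Type} (A : ι → Vc k) : (ι → Mat k) →ₗ[ℂ] (ι → Mat k) where
  toFun K := fun i => (2 * Complex.I)⁻¹ • ((1 + Complex.I • herm (A i)) * K i *
    (1 - Complex.I • herm (A i)))
  map_add' K K' := by
    funext i
    simp only [Pi.add_apply, mul_add, add_mul, smul_add]
  map_smul' c K := by
    funext i
    simp only [Pi.smul_apply, RingHom.id_apply, Algebra.mul_smul_comm, Algebra.smul_mul_assoc]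
    rw [smul_comm]

theorem der3 (hc : S_CAY) : S_DER3 := by
  intro ι _ _ k A hA
  have hMS : MM A ∘ₗ SS A = LinearMap.id := by
    refine LinearMap.ext fun K => funext fun i => ?_
    obtain ⟨-, h1, h2⟩ := hc k (A i)
    have h1' : (1 - Complex.I • herm (A i)) * (1 - Complex.I • herm (A i))⁻¹ = 1 :=
      Matrix.mul_nonsing_inv _ ((Matrix.isUnit_iff_isUnit_det _).1 h1)
    have h2' : (1 + Complex.I • herm (A i))⁻¹ * (1 + Complex.I • herm (A i)) = 1 :=
      Matrix.nonsing_inv_mul _ ((Matrix.isUnit_iff_isUnit_det _).1 h2)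
    show (2 * Complex.I) • ((1 + Complex.I • herm (A i))⁻¹ *
      ((2 * Complex.I)⁻¹ • ((1 + Complex.I • herm (A i)) * K i *
        (1 - Complex.I • herm (A i)))) * (1 - Complex.I • herm (A i))⁻¹) = K i
    rw [Algebra.mul_smul_comm, Algebra.smul_mul_assoc, smul_smul,
      mul_inv_cancel₀ (by simp [Complex.I_ne_zero]), one_smul]
    calc _ = ((1 + Complex.I • herm (A i))⁻¹ * (1 + Complex.I • herm (A i))) * K i *
          ((1 - Complex.I • herm (A i)) * (1 - Complex.I • herm (A i))⁻¹) := by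
            simp only [mul_assoc]
      _ = K i := by rw [h1', h2', one_mul, mul_one]
  have hdet : LinearMap.det (MM A) * LinearMap.det (SS A) = 1 := by
    rw [← LinearMap.det_comp, hMS, LinearMap.det_id]
  have hS : ‖LinearMap.det (SS A)‖ ≤ 1 := by
    have hb : LinearMap.det (SS A) = Matrix.det (LinearMap.toMatrix'
        ((eq (ι := ι) (k := k)).toLinearMap ∘ₗ SS A ∘ₗ (eq (ι := ι) (k := k)).symm.toLinearMap)) := by
      rw [LinearMap.det_toMatrix', LinearMap.det_conj]
    rw [hb]
    apply det_le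
    have hent : ∀ p q : ι × Fin k × Fin k, ‖LinearMap.toMatrix'
        ((eq (ι := ι) (k := k)).toLinearMap ∘ₗ SS A ∘ₗ (eq (ι := ι) (k := k)).symm.toLinearMap) p q‖ ^ 2 =
        if p.1 = q.1 then 1 / 4 * (‖((1 : Mat k) + ((1 : ℝ) * Complex.I : ℂ) • herm (A p.1))
          p.2.1 q.2.1‖ ^ 2 * ‖((1 : Mat k) + (((-1 : ℝ) : ℂ) * Complex.I) • herm (A p.1))
          q.2.2 p.2.2‖ ^ 2) else 0 := by
      intro p q
      obtain ⟨i, a, b⟩ := p
      obtain ⟨j, c, d⟩ := q
      rw [LinearMap.toMatrix'_apply]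
      have hK : ((eq (ι := ι) (k := k)).symm (Pi.single (j, c, d) (1 : ℂ))) =
          fun l => if l = j then Matrix.single c d 1 else 0 := by
        funext l x y
        show (Pi.single (j, c, d) (1 : ℂ) : ι × Fin k × Fin k → ℂ) (l, x, y) = _
        rw [Pi.single_apply]
        by_cases hl : l = j
        · rw [if_pos hl, Matrix.single_apply]
          simp only [Prod.mk.injEq, hl, true_and]
          simp only [eq_comm]
        · rw [if_neg hl]
          simp [hl]
      show ‖((SS A ((eq (ι := ι) (k := k)).symm (Pi.single (j, c, d) (1 : ℂ)))) i) a b‖ ^ 2 = _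
      rw [hK]
      show ‖((2 * Complex.I)⁻¹ • ((1 + Complex.I • herm (A i)) *
        (if i = j then Matrix.single c d (1 : ℂ) else 0) * (1 - Complex.I • herm (A i)))) a b‖ ^ 2 = _
      by_cases hij : i = j
      · rw [if_pos hij]
        simp only [if_pos hij]
        have e1 : ((1 : Mat k) + ((1 : ℝ) * Complex.I : ℂ) • herm (A i)) =
            1 + Complex.I • herm (A i) := by simp
        have e2 : ((1 : Mat k) + (((-1 : ℝ) : ℂ) * Complex.I) • herm (A i)) =
            1 - Complex.I • herm (A i) := by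
          simp [sub_eq_add_neg]
        rw [e1, e2]
        have e3 : ((1 + Complex.I • herm (A i)) * Matrix.single c d (1 : ℂ) *
            (1 - Complex.I • herm (A i))) a b = (1 + Complex.I • herm (A i)) a c *
            (1 - Complex.I • herm (A i)) d b := by
          rw [Matrix.mul_apply]
          rw [Finset.sum_eq_single d]
          · rw [Matrix.mul_apply, Finset.sum_eq_single c]
            · simp
            · intro x _ hx
              simp [Matrix.single_apply, Ne.symm hx]
            · simp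
          · intro x _ hx
            rw [Matrix.mul_apply]
            have : ∑ y, (1 + Complex.I • herm (A i)) a y * (Matrix.single c d (1 : ℂ)) y x = 0 :=
              Finset.sum_eq_zero fun y _ => by simp [Matrix.single_apply, Ne.symm hx]
            rw [this, zero_mul]
          · simp
        rw [Matrix.smul_apply, e3, smul_eq_mul, norm_mul, norm_mul, mul_pow, mul_pow]
        congr 1
        simp
        norm_num
      · rw [if_neg hij]
        simp [hij]
    simp only [hent]
    rw [Fintype.sum_prod_type]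
    have hi : ∀ i : ι, ∑ y : Fin k × Fin k, ∑ x_1 : ι × Fin k × Fin k,
        (if (i, y).1 = x_1.1 then 1 / 4 *
          (‖((1 : Mat k) + ((1 : ℝ) * Complex.I : ℂ) • herm (A (i, y).1)) (i, y).2.1 x_1.2.1‖ ^ 2 *
          ‖((1 : Mat k) + (((-1 : ℝ) : ℂ) * Complex.I) • herm (A (i, y).1)) x_1.2.2 (i, y).2.2‖ ^ 2)
          else 0) = 1 / 4 * ((k + Pool.Agent.H755R2.NG.sq (A i)) *
            (k + Pool.Agent.H755R2.NG.sq (A i))) := by
      intro i
      rw [← one_sum (A i) 1 (by norm_num)]
      nth_rewrite 2 [one_sum (A i) 1 (by norm_num)]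
      rw [← one_sum (A i) (-1) (by norm_num)]
      simp only [Fintype.sum_prod_type]
      simp only [Finset.sum_ite_irrel, Finset.sum_const_zero, Finset.sum_ite_eq,
        Finset.mem_univ, if_true]
      exact four_sum _ _
    rw [Finset.sum_congr rfl fun i _ => hi i]
    calc _ ≤ ∑ i : ι, ((k : ℝ) ^ 2) := by
          refine Finset.sum_le_sum fun i _ => ?_
          have h0 : 0 ≤ Pool.Agent.H755R2.NG.sq (A i) := Finset.sum_nonneg fun _ _ => sq_nonneg _
          have := hA i
          nlinarith [hA i, Nat.cast_nonneg (α := ℝ) k]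
      _ = _ := by
          simp only [Finset.sum_const, Finset.card_univ, nsmul_eq_mul, Fintype.card_prod,
            Fintype.card_fin, Nat.cast_mul]
          ring
  have h3 := congrArg norm hdet
  rw [norm_mul, norm_one] at h3
  by_contra hlt
  rw [not_le] at hlt
  nlinarith [norm_nonneg (LinearMap.det (MM A)), norm_nonneg (LinearMap.det (SS A))]

end Pool.Agent.H849R2.DER3
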